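import Mathlib
set_option autoImplicit false
namespace Pool.Agent.Results.MP_80f852_al.Yes

open Matrix

def e {n : ℕ} (a : Option (Fin n)) (j : Fin n) : ℤ := if a = some j then 1 else 0

/-- network vectors -/
def Net {n : ℕ} (v : Fin n → ℤ) : Prop := ∃ a b, v = e a - e b

lemma e_succ {n : ℕ} (a : Option (Fin (n + 1))) (j : Fin (n + 1)) :
    ∃ a', e a ∘ j.succAbove = e a' := by
  by_cases h : ∃ k, a = some (j.succAbove k)
  · obtain ⟨k, rfl⟩ := h
    exact ⟨some k, funext fun l => by simp [e]⟩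
  · exact ⟨none, funext fun l => by simp [e, not_exists.1 h l]⟩

lemma net (n : ℕ) : ∀ A : Matrix (Fin n) (Fin n) ℤ, (∀ i, Net (A i)) → |A.det| ≤ 1 := by
  induction n with
  | zero => simp
  | succ n ih =>
    intro A h
    have minor : ∀ i j : Fin (n + 1), |(A.submatrix i.succAbove j.succAbove).det| ≤ 1 := fun i j =>
      ih _ fun k => by
        obtain ⟨a, b, h⟩ := h (i.succAbove k)
        obtain ⟨a', ha⟩ := e_succ a j
        obtain ⟨b', hb⟩ := e_succ b j
        exact ⟨a', b', by rw [← ha, ← hb]; ext l; simp [h]⟩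
    choose a b h using h
    by_cases k : ∃ i, a i = none ∨ b i = none
    · obtain ⟨i, k⟩ := k
      obtain ⟨c, hc⟩ : ∃ c, ∀ j, |A i j| = e c j := by
        rcases k with k | k
        · exact ⟨b i, fun j => by simp [h, k, e]; split_ifs <;> simp⟩
        · exact ⟨a i, fun j => by simp [h, k, e]; split_ifs <;> simp⟩
      rw [det_succ_row A i]
      refine (Finset.abs_sum_le_sum_abs _ _).trans ((Finset.sum_le_sum (g := e c)
        fun j _ => ?_).trans ?_)
      · rw [abs_mul, abs_mul, abs_neg_one_pow, one_mul, ← hc]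
        exact mul_le_of_le_one_right (abs_nonneg _) (minor i j)
      · cases c <;> simp [e]
    · have : A.det = 0 := exists_mulVec_eq_zero_iff.1 ⟨1, one_ne_zero, funext fun i => by
        push Not at k
        obtain ⟨x, hx⟩ := Option.ne_none_iff_exists'.1 (k i).1
        obtain ⟨y, hy⟩ := Option.ne_none_iff_exists'.1 (k i).2
        simp [mulVec, dotProduct, h, hx, hy, e]⟩
      simp [this]

lemma two {n : ℕ} (s : Finset (Fin n)) : ∀ A : Matrix (Fin n) (Fin n) ℤ, (∀ i ∉ s, Net (A i)) →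
    (∀ i ∈ s, ∃ u v, Net u ∧ Net v ∧ A i = u + v) → |A.det| ≤ 2 ^ s.card := by
  induction s using Finset.induction with
  | empty => exact fun A h _ => net n A fun i => h i (by simp)
  | insert i s hi ih =>
    intro A h k
    obtain ⟨u, v, hu, hv, e⟩ := k i (by simp)
    have : ∀ u, Net u → |(A.updateRow i u).det| ≤ 2 ^ s.card := fun u hu => ih _
      (fun j hj => by
        by_cases e : j = i
        · simpa [e]
        · rw [updateRow_ne e]; exact h j (by simp [e, hj]))
      fun j hj => by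
        rw [updateRow_ne (by rintro rfl; exact hi hj)]; exact k j (by simp [hj])
    rw [← updateRow_eq_self A i, e, det_updateRow_add, Finset.card_insert_of_notMem hi, pow_succ]
    linarith [abs_add_le (A.updateRow i u).det (A.updateRow i v).det, this u hu, this v hv]

lemma short0 {Q ι : Type*} [AddCommGroup Q] [Fintype ι] (a : ι → Q) (s : ℕ) : ∀ q : Q,
    (∃ t : ι → ℕ, ∑ i, t i = s ∧ ∑ i, t i • a i = q) →
    (∀ t : ι → ℕ, ∑ i, t i • a i = q → s ≤ ∑ i, t i) →
    ∃ F : Finset Q, F.card = s + 1 ∧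
      ∀ p ∈ F, ∃ t : ι → ℕ, ∑ i, t i ≤ s ∧ ∑ i, t i • a i = p := by
  classical
  induction s with
  | zero =>
    rintro q ⟨t, h1, h2⟩ _
    exact ⟨{q}, rfl, fun p hp => ⟨t, h1.le, by rw [h2, Finset.mem_singleton.1 hp]⟩⟩
  | succ s ih =>
    rintro q ⟨t, h1, h2⟩ hm
    obtain ⟨i, hi⟩ : ∃ i, t i ≠ 0 := by
      by_contra h
      push Not at h
      simp [h] at h1
    have s1 : ∀ u : ι → ℕ, ∑ j, (u + Pi.single i 1 : ι → ℕ) j = ∑ j, u j + 1 := fun u => by
      simp [Finset.sum_add_distrib]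
    have s2 : ∀ u : ι → ℕ, ∑ j, (u + Pi.single i 1 : ι → ℕ) j • a j = ∑ j, u j • a j + a i :=
      fun u => by simp [Finset.sum_add_distrib, add_smul, Pi.single_apply]
    obtain ⟨u, rfl⟩ : ∃ u : ι → ℕ, t = u + Pi.single i 1 := ⟨t - Pi.single i 1, by
      ext j
      by_cases h : j = i
      · subst h; simp; omega
      · simp [h]⟩
    rw [s1] at h1
    rw [s2] at h2
    obtain ⟨F, c, hF⟩ := ih (q - a i) ⟨u, by omega, by rw [← h2]; abel⟩ fun v hv => by
      have := hm (v + Pi.single i 1) (by rw [s2, hv]; abel)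
      rw [s1] at this
      omega
    have hq : q ∉ F := fun h => by
      obtain ⟨v, v1, v2⟩ := hF q h
      have := hm v v2
      omega
    refine ⟨insert q F, by rw [Finset.card_insert_of_notMem hq, c], fun p hp => ?_⟩
    rcases Finset.mem_insert.1 hp with rfl | hp
    · exact ⟨u + Pi.single i 1, by rw [s1]; omega, by rw [s2, h2]⟩
    · obtain ⟨v, v1, v2⟩ := hF p hp
      exact ⟨v, by omega, v2⟩

lemma short {Q ι : Type*} [AddCommGroup Q] [Finite Q] [Fintype ι] (a : ι → Q) (z : ι → ℤ) :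
    ∃ t : ι → ℕ, ∑ i, t i < Nat.card Q ∧ ∑ i, t i • a i = ∑ i, z i • a i := by
  classical
  have c0 : (0 : ℤ) < Nat.card Q := by exact_mod_cast Nat.card_pos
  have ex : ∃ s, ∃ t : ι → ℕ, ∑ i, t i = s ∧ ∑ i, t i • a i = ∑ i, z i • a i :=
    ⟨_, fun i => (z i % Nat.card Q).toNat, rfl, Finset.sum_congr rfl fun i _ => by
      rw [← natCast_zsmul, Int.toNat_of_nonneg (Int.emod_nonneg _ c0.ne'), Int.emod_def, sub_smul,
        mul_comm, mul_smul, natCast_zsmul, card_nsmul_eq_zero', smul_zero, sub_zero]⟩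
  obtain ⟨F, c, -⟩ := short0 a (Nat.find ex) _ (Nat.find_spec ex)
    fun t ht => Nat.find_min' ex ⟨t, rfl, ht⟩
  obtain ⟨t, h1, h2⟩ := Nat.find_spec ex
  have := Fintype.ofFinite Q
  have := F.card_le_univ
  exact ⟨t, by rw [h1, Nat.card_eq_fintype_card]; omega, h2⟩

lemma cardQ {n : ℕ} (A : Matrix (Fin n) (Fin n) ℤ) (h : A.det ≠ 0) :
    Nat.card ((Fin n → ℤ) ⧸ LinearMap.range (toLin' A)) = A.det.natAbs := by
  have inj : Function.Injective (toLin' A) := by
    rw [injective_iff_map_eq_zero]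
    intro v hv
    by_contra h0
    exact h (exists_mulVec_eq_zero_iff.1 ⟨v, h0, hv⟩)
  rw [← Submodule.natAbs_det_equiv _ (LinearEquiv.ofInjective _ inj), ← LinearMap.det_toLin' A]
  rfl

theorem result (n : ℕ) (x : Fin n → ℤ) : ∃ y : Fin n → ℤ, (∀ i, |y i| ≤ 2 ^ (n - 1)) ∧
    (∀ i, x i = 1 → y i = 1) ∧ ∀ i j k, x k = x i + x j → y k = y i + y j := by
  classical
  by_cases h1 : ∃ i0, x i0 = 1
  swap
  · exact ⟨0, by simp, fun i h => (h1 ⟨i, h⟩).elim, by simp⟩
  obtain ⟨i0, h0⟩ := h1
  have es : ∀ (y : Fin n → ℤ) a, e (some a) ⬝ᵥ y = y a := fun y a => by simp [e, dotProduct]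
  have en : e (none : Option (Fin n)) = 0 := by ext; simp [e]
  have e1 : ∀ i : Fin n, Pi.single i 1 = e (some i) := fun i => by
    ext j; simp [e, Pi.single_apply, eq_comm]
  let T : Set (Fin n → ℤ) := {v | (∃ u w, Net u ∧ Net w ∧ v = u + w) ∧ v ⬝ᵥ x = 0}
  let G : Finset (Fin n) → Prop := fun s => i0 ∉ s ∧ ∃ A : Matrix (Fin n) (Fin n) ℤ, A.det ≠ 0 ∧
    A i0 = e (some i0) ∧ (∀ i ∈ s, A i ∈ T) ∧ ∀ i ∉ s, Net (A i)
  have g0 : G ∅ := ⟨by simp, 1, by simp, by ext j; simp [e, one_apply], by simp,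
    fun i _ => ⟨some i, none, by ext j; simp [e, one_apply]⟩⟩
  obtain ⟨s, hs, hmax⟩ := (Finset.univ.filter G).exists_max_image Finset.card ⟨∅, by simpa⟩
  obtain ⟨s0, A, a0, a1, a2, a3⟩ : G s := by simpa using hs
  have z1 : ∀ v ∈ T, ∀ i ∉ s, i ≠ i0 → (A.updateRow i v).det = 0 := fun v hv i hi h => by
    by_contra hd
    have := hmax (insert i s) (by
      simp only [Finset.mem_filter, Finset.mem_univ, true_and]
      refine ⟨by simp [s0, h.symm], A.updateRow i v, hd, by rw [updateRow_ne h.symm, a1],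
        fun j hj => ?_, fun j hj => ?_⟩
      · by_cases k : j = i
        · simpa [k]
        · rw [updateRow_ne k]; exact a2 j (by simpa [k] using hj)
      · simp only [Finset.mem_insert, not_or] at hj
        rw [updateRow_ne hj.1]; exact a3 j hj.2)
    rw [Finset.card_insert_of_notMem hi] at this
    omega
  have z2 : ∀ v ∈ T, ∀ y : Fin n → ℤ, y i0 = 1 → (∀ i ∈ s, A i ⬝ᵥ y = 0) →
      A.det * (v ⬝ᵥ y) = (A.updateRow i0 v).det := fun v hv y y0 hy => by
    have c := mulVec_cramer Aᵀ v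
    rw [det_transpose, mulVec_transpose] at c
    rw [← smul_eq_mul, ← smul_dotProduct, ← c, ← dotProduct_mulVec, dotProduct,
      Finset.sum_eq_single i0]
    · rw [cramer_transpose_apply]
      show _ * (A i0 ⬝ᵥ y) = _
      rw [a1, es, y0, mul_one]
    · intro i _ h
      rw [cramer_transpose_apply]
      show _ * (A i ⬝ᵥ y) = _
      by_cases k : i ∈ s
      · rw [hy i k, mul_zero]
      · rw [z1 v hv i k h, zero_mul]
    · simp
  have z3 : ∀ v ∈ T, ∀ y : Fin n → ℤ, y i0 = 1 → (∀ i ∈ s, A i ⬝ᵥ y = 0) → v ⬝ᵥ y = 0 :=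
    fun v hv y y0 hy => by
      have p := z2 v hv y y0 hy
      rw [← z2 v hv x h0 fun i hi => (a2 i hi).2, hv.2, mul_zero] at p
      exact (mul_eq_zero.1 p).resolve_left a0
  have bd : ∀ i ∉ s, ∀ k, |A.adjugate k i| ≤ 2 ^ (n - 1) := fun i hi k => by
    rw [adjugate_apply, e1]
    refine (two s _ (fun j hj => ?_) fun j hj => ?_).trans (pow_le_pow_right₀ (by norm_num) ?_)
    · by_cases h : j = i
      · exact ⟨some k, none, by simp [h, en]⟩
      · rw [updateRow_ne h]; exact a3 j hj
    · rw [updateRow_ne (by rintro rfl; exact hi hj)]; exact (a2 j hj).1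
    · have := Finset.card_le_card (s := s) (t := Finset.univ.erase i0)
        fun j hj => by simp; rintro rfl; exact s0 hj
      simpa [Finset.card_erase_of_mem] using this
  have cq := cardQ A a0
  have : Finite ((Fin n → ℤ) ⧸ LinearMap.range (toLin' A)) :=
    Nat.finite_of_card_ne_zero (by rw [cq]; simpa using a0)
  let N : Fin n → Prop := fun i => i ∉ s ∧ i ≠ i0
  let π := (LinearMap.range (toLin' A)).mkQ
  obtain ⟨t, t1, t2⟩ := short (fun i : Fin n => if N i then π (Pi.single i 1) else 0) (A *ᵥ x)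
  let b : Fin n → ℤ := fun i => if N i then t i else if i = i0 then 1 else 0
  have sm : ∀ c : Fin n → ℤ, ∑ i, c i • (if N i then π (Pi.single i 1) else 0) =
      π (fun i => if N i then c i else 0) := fun c => by
    rw [pi_eq_sum_univ' (fun i => if N i then c i else 0), map_sum]
    refine Finset.sum_congr rfl fun i _ => ?_
    rw [map_smul]
    split_ifs
    · rfl
    · rw [smul_zero, zero_smul]
  have hb : π b = 0 := by
    simp only [← natCast_zsmul] at t2
    rw [sm, sm] at t2
    have p : π (A *ᵥ x) = 0 := (Submodule.Quotient.mk_eq_zero _).2 ⟨x, rfl⟩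
    have q1 : b = (fun i => if N i then (t i : ℤ) else 0) + Pi.single i0 1 := by
      ext i
      by_cases h : i = i0 <;> simp [b, N, h]
    have q2 : A *ᵥ x = (fun i => if N i then (A *ᵥ x) i else 0) + Pi.single i0 1 := by
      ext i
      by_cases h : i = i0
      · subst h
        simp only [N, ne_eq, not_true, and_false, if_false, Pi.add_apply, zero_add,
          Pi.single_eq_same]
        show A i ⬝ᵥ x = 1
        rw [a1, es, h0]
      · by_cases k : i ∈ s
        · simp only [N, k, not_true, false_and, if_false, Pi.add_apply, zero_add,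
            Pi.single_eq_of_ne h]
          exact (a2 i k).2
        · simp [N, h, k]
    rw [q1, map_add, t2, ← map_add, ← q2, p]
  obtain ⟨y, hy⟩ := (Submodule.Quotient.mk_eq_zero _).1 hb
  rw [toLin'_apply] at hy
  have y0 : y i0 = 1 := by
    have : A i0 ⬝ᵥ y = b i0 := congrFun hy i0
    rw [a1, es] at this
    simp [this, b, N]
  have ys : ∀ i ∈ s, A i ⬝ᵥ y = 0 := fun i hi => by
    have : A i ⬝ᵥ y = b i := congrFun hy i
    have h : i ≠ i0 := by rintro rfl; exact s0 hi
    simp [this, b, N, hi, h]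
  refine ⟨y, fun k => ?_, fun j h => ?_, fun i j k h => ?_⟩
  · have m := congrFun (congrArg (A.adjugate *ᵥ ·) hy) k
    simp only [mulVec_mulVec, adjugate_mul, smul_mulVec, one_mulVec, Pi.smul_apply,
      smul_eq_mul] at m
    have b0 : ∑ i, b i ≤ |A.det| := by
      have : ∑ i, b i ≤ ∑ i, ((t i : ℤ) + if i = i0 then 1 else 0) :=
        Finset.sum_le_sum fun i _ => by
          by_cases h : i = i0
          · simp [b, N, h]
          · by_cases k : N i <;> simp [b, k, h]
      rw [Finset.sum_add_distrib, ← Nat.cast_sum] at this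
      simp only [Finset.sum_ite_eq', Finset.mem_univ, if_true] at this
      rw [cq] at t1
      rw [Int.abs_eq_natAbs]
      omega
    have b1 : |A.det| * |y k| ≤ (∑ i, b i) * 2 ^ (n - 1) := by
      rw [← abs_mul, m, Finset.sum_mul]
      simp only [mulVec, dotProduct]
      refine (Finset.abs_sum_le_sum_abs _ _).trans (Finset.sum_le_sum fun i _ => ?_)
      by_cases h : i ∈ s
      · have h' : i ≠ i0 := by rintro rfl; exact s0 h
        simp [b, N, h, h']
      · have p : 0 ≤ b i := by simp only [b]; split_ifs <;> simp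
        rw [abs_mul, abs_of_nonneg p, mul_comm]
        exact mul_le_mul_of_nonneg_left (bd i h k) p
    exact le_of_mul_le_mul_left (b1.trans (mul_le_mul_of_nonneg_right b0 (by positivity)))
      (abs_pos.2 a0)
  · have := z3 (e (some j) - e (some i0) + (e none - e none)) ⟨⟨_, _, ⟨_, _, rfl⟩, ⟨_, _, rfl⟩, rfl⟩,
      by simp [es, h, h0]⟩ y y0 ys
    simp [es, y0] at this
    omega
  · have := z3 (e (some i) - e (some k) + (e (some j) - e none)) ⟨⟨_, _, ⟨_, _, rfl⟩, ⟨_, _, rfl⟩,
      rfl⟩, by simp [es, en, h]⟩ y y0 ys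
    simp [es, en] at this
    omega

end Pool.Agent.Results.MP_80f852_al.Yes
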